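import Pool.Agent.Lib.MP_07573f_lc.Main

set_option autoImplicit false
open Pool.Agent.Lib.MP_07573f_lc

namespace Pool.Agent.Results.MP_07573f_lc.OneWaySketch

theorem result (n L K : ℕ) (f : Fin n → Set (Fin n) → List Bool)
    (g : (Fin n → List Bool) → Bool) (h : SolvesP4 f g L) (U : Finset (Fin n))
    (hU : 2 * L + 3 ≤ U.card) (hw : ∀ u ∈ U, OneWay K u (f u)) :
    n ≤ (2 * L + 3) * (2 * K + 1) + 4 :=
  main h U hU hw

end Pool.Agent.Results.MP_07573f_lc.OneWaySketch
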