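import Pool.Agent.Lib.ND37.Main

set_option autoImplicit false
open Pool.Agent.Lib.MP_07573f_lc Pool.Agent.Lib.ND37

namespace Pool.Agent.Results.MP_07573f_lc.PolyDegree

theorem result (ε : ℝ) (hε : 0 < ε) : ∃ C : ℕ, ∀ (K : Type) [Field K] (n L E : ℕ)
    (f : Fin n → Set (Fin n) → List Bool) (g : (Fin n → List Bool) → Bool), SolvesP4 f g L →
    ∀ U : Finset (Fin n), C * (L + 1) ≤ U.card → (∀ u ∈ U, NDeg K E u (f u)) →
    (n : ℝ) ≤ (2 + ε) * E + C * (L + 1) :=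
  bound ε hε

end Pool.Agent.Results.MP_07573f_lc.PolyDegree
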